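import Pool.Agent.Y395.RS.Stm

set_option autoImplicit false

/-! HIGH (project RS, helper395): vertices of large degree are fixed by near-automorphisms. -/

namespace Pool.Agent.Y891.RC.HIf

open Finset Pool.Agent.H234RC Pool.Agent.TH953.RC Pool.Agent.Y395.RS

theorem one (hS : SPREAD) (hH : HP) (V : Type) [Fintype V] [DecidableEq V] (G : SimpleGraph V)
    (v v' u1 u2 w1 w2 : V) (N : Finset V) (d J h : ℕ) (hn : 2 ≤ Fintype.card V)
    (hN : N ⊆ nb G univ v) (hI : Indep G N)
    (hd : ∀ z ∈ N, d + 3 ≤ (nb G univ z).card) (hJ : (16 * J) ^ 2 ≤ d + 1)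
    (hh : (Fintype.card V) ^ 200 ≤ (h + 1) ^ (J + 1))
    (hc : 400 * (Nat.log 2 (Fintype.card V) + 1) * h + 5 ≤ N.card)
    (hp : 32 * (Fintype.card V + 2) ^ J * (Fintype.card V) ^ 10 ≤ 2 ^ N.card)
    (h1 : v ≠ v') (h2 : v ≠ u1) (h3 : v ≠ u2) (h4 : v' ≠ w1) (h5 : v' ≠ w2) :
    cnt (ed G) (Match v v' {u1, u2} {w1, w2}) ≤
      2 * (1 / (Fintype.card V : ℝ) ^ 10 * 2 ^ (ed G).card) := by
  set R : Finset V := {v', u1, u2, w1, w2} with hR
  have hRc : R.card ≤ 5 := card_le_five
  have hN2c : N.card ≤ (N \ R).card + 5 := by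
    have := le_card_sdiff R N
    omega
  have hsub : N \ R ⊆ N := sdiff_subset
  have hvN : v ∉ N := by
    intro hv
    have := (mem_nb G univ v v).1 (hN hv)
    exact G.irrefl this.2
  have hU : Disjoint (N \ R) ({u1, u2} : Finset V) := by
    rw [disjoint_left]
    intro z hz hz2
    apply (mem_sdiff.1 hz).2
    rw [hR]
    simp only [mem_insert, mem_singleton] at hz2 ⊢
    tauto
  have hU' : Disjoint (N \ R) ({w1, w2} : Finset V) := by
    rw [disjoint_left]
    intro z hz hz2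
    apply (mem_sdiff.1 hz).2
    rw [hR]
    simp only [mem_insert, mem_singleton] at hz2 ⊢
    tauto
  have hv'N : v' ∉ N \ R := by
    intro hz
    apply (mem_sdiff.1 hz).2
    rw [hR]
    simp
  have key := hH V G v v' {u1, u2} {w1, w2} (N \ R) hn h1 card_le_two card_le_two
    (by simp [h2, h3]) (by simp [h4, h5]) (hsub.trans hN) hv'N hU hU'
  have hW : (insert v ({u1, u2} : Finset V)).card ≤ 3 := by
    refine (card_insert_le _ _).trans ?_
    have : ({u1, u2} : Finset V).card ≤ 2 := card_le_two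
    omega
  have spr := hS V G (N \ R) (insert v ({u1, u2} : Finset V)) d J h hn
    (fun x hx y hy => hI x (hsub hx) y (hsub hy))
    (by
      rw [disjoint_left]
      intro z hz hz2
      rcases mem_insert.1 hz2 with rfl | hz2
      · exact hvN (hsub hz)
      · exact (disjoint_left.1 hU) hz hz2)
    (by
      intro z hz
      have a1 := hd z (hsub hz)
      have a2 : nb G univ z ⊆ nb G (univ \ insert v ({u1, u2} : Finset V)) z ∪
          insert v ({u1, u2} : Finset V) := by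
        intro y hy
        rw [mem_union]
        by_cases hy2 : y ∈ insert v ({u1, u2} : Finset V)
        · exact Or.inr hy2
        · left
          rw [mem_nb, mem_sdiff]
          exact ⟨⟨mem_univ _, hy2⟩, ((mem_nb G univ z y).1 hy).2⟩
      have a3 := card_le_card a2
      have a4 := card_union_le (nb G (univ \ insert v ({u1, u2} : Finset V)) z)
        (insert v ({u1, u2} : Finset V))
      omega)
    hJ hh (by omega)
  have hnum : ((Fintype.card V : ℝ) + 2) ^ J * (1 / 2) ^ (N \ R).card ≤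
      1 / (Fintype.card V : ℝ) ^ 10 := by
    have hn0 : (0 : ℝ) < (Fintype.card V : ℝ) := by
      have : 0 < Fintype.card V := by omega
      exact_mod_cast this
    have b1 : (32 : ℝ) * ((Fintype.card V : ℝ) + 2) ^ J * (Fintype.card V : ℝ) ^ 10 ≤
        2 ^ N.card := by exact_mod_cast hp
    have b2 : (2 : ℝ) ^ N.card ≤ 2 ^ ((N \ R).card + 5) :=
      pow_le_pow_right₀ (by norm_num) hN2c
    have b3 : (2 : ℝ) ^ ((N \ R).card + 5) = 32 * 2 ^ (N \ R).card := by
      rw [pow_add]; norm_num; ring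
    have b4 : ((Fintype.card V : ℝ) + 2) ^ J * (Fintype.card V : ℝ) ^ 10 ≤
        2 ^ (N \ R).card := by
      have := b1.trans (b2.trans (le_of_eq b3))
      linarith
    rw [one_div_pow, mul_one_div, div_le_div_iff₀ (by positivity) (by positivity), one_mul]
    exact b4
  have spr2 : ((Fintype.card V : ℝ) + 2) ^ J * (1 / 2) ^ (N \ R).card * 2 ^ (ed G).card ≤
      1 / (Fintype.card V : ℝ) ^ 10 * 2 ^ (ed G).card :=
    mul_le_mul_of_nonneg_right hnum (by positivity)
  linarith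

theorem main (hS : SPREAD) (hH : HP) (hA : NAM) : HIGH := by
  intro V _ _ G v N d J h hn hN hI hd hJ hh hc hp
  classical
  let T := V × V × V × V × V
  let I : Finset T := (univ : Finset T).filter (fun t => v ≠ t.1 ∧ v ≠ t.2.1 ∧ v ≠ t.2.2.1 ∧
    t.1 ≠ t.2.2.2.1 ∧ t.1 ≠ t.2.2.2.2)
  have hIc : (I.card : ℝ) ≤ (Fintype.card V : ℝ) ^ 5 := by
    have h1 : I.card ≤ (univ : Finset T).card := card_filter_le _ _
    have h2 : (univ : Finset T).card = Fintype.card V ^ 5 := by
      rw [card_univ]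
      show Fintype.card (V × V × V × V × V) = _
      simp only [Fintype.card_prod]
      ring
    rw [h2] at h1
    exact_mod_cast h1
  have hev : cnt (ed G) (fun F => ¬ Rn (gr F) v) ≤
      cnt (ed G) (fun F => ∃ t ∈ I, Match v t.1 {t.2.1, t.2.2.1} {t.2.2.2.1, t.2.2.2.2} F) := by
    apply cnt_mono
    intro F _ hF
    unfold Rn at hF
    push Not at hF
    obtain ⟨φ, hφ, h1, h2, h3⟩ := hF
    refine ⟨(φ.1 v, φ.2.1, φ.2.2, φ.1 φ.2.1, φ.1 φ.2.2), ?_, hA V F φ v hφ h1 h2⟩
    rw [mem_filter]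
    exact ⟨mem_univ _, fun e => h3 e.symm, h1, h2, fun e => h1 (φ.1.injective e),
      fun e => h2 (φ.1.injective e)⟩
  refine hev.trans ?_
  refine (cnt_ex _ _ _).trans ?_
  have hone : ∀ t ∈ I, cnt (ed G) (Match v t.1 {t.2.1, t.2.2.1} {t.2.2.2.1, t.2.2.2.2}) ≤
      2 * (1 / (Fintype.card V : ℝ) ^ 10 * 2 ^ (ed G).card) := by
    intro t ht
    obtain ⟨-, a1, a2, a3, a4, a5⟩ := mem_filter.1 ht
    exact one hS hH V G v t.1 t.2.1 t.2.2.1 t.2.2.2.1 t.2.2.2.2 N d J h hn hN hI hd hJ hh hc hp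
      a1 a2 a3 a4 a5
  refine (sum_le_sum hone).trans ?_
  rw [sum_const, nsmul_eq_mul]
  have hn2 : (2 : ℝ) ≤ (Fintype.card V : ℝ) := by exact_mod_cast hn
  have hn0 : (0 : ℝ) < (Fintype.card V : ℝ) := by linarith
  have hpos : (0 : ℝ) ≤ 2 * (1 / (Fintype.card V : ℝ) ^ 10 * 2 ^ (ed G).card) := by positivity
  refine (mul_le_mul_of_nonneg_right hIc hpos).trans ?_
  have e1 : (Fintype.card V : ℝ) ^ 5 * (2 * (1 / (Fintype.card V : ℝ) ^ 10 * 2 ^ (ed G).card)) =
      (2 * (1 / (Fintype.card V : ℝ) ^ 5)) * 2 ^ (ed G).card := by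
    field_simp
  rw [e1]
  apply mul_le_mul_of_nonneg_right _ (by positivity)
  rw [mul_one_div, div_le_div_iff₀ (by positivity) (by positivity), one_mul]
  calc 2 * (Fintype.card V : ℝ) ^ 4 ≤ (Fintype.card V : ℝ) * (Fintype.card V : ℝ) ^ 4 := by
        gcongr
    _ = (Fintype.card V : ℝ) ^ 5 := by ring

end Pool.Agent.Y891.RC.HIf
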