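import Pool.Agent.Y395.RS.Stm

set_option autoImplicit false

/-! Project RS (helper395): the probability of a match. -/

namespace Pool.Agent.Y891.RC.HPf

open Finset Pool.Agent.H234RC Pool.Agent.TH953.RC Pool.Agent.Y395.RS

section

variable {V : Type} [Fintype V] [DecidableEq V]

/-- edges at `v` do not count -/
theorem dg_union (v : V) (U N : Finset V) (hv : v ∉ N) (F0 A : Finset (Sym2 V))
    (hA : A ⊆ N.image (fun z => s(v, z))) (z : V) (hz : z ∈ N) :
    dg (F0 ∪ A) (insert v U) z = dg F0 (insert v U) z := by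
  unfold dg
  congr 1
  ext w
  rw [mem_nb, mem_nb, gr_adj, gr_adj, mem_union]
  have key : w ∈ univ \ insert v U → s(z, w) ∉ A := by
    intro hw h
    rw [mem_sdiff, mem_insert] at hw
    have h1 := hA h
    rw [mem_image] at h1
    obtain ⟨z', hz', h2⟩ := h1
    rw [Sym2.eq_iff] at h2
    rcases h2 with ⟨h3, -⟩ | ⟨h3, -⟩
    · exact hv (h3 ▸ hz)
    · exact hw.2 (Or.inl h3.symm)
  constructor
  · rintro ⟨h1, h2 | h2, h3⟩
    · exact ⟨h1, h2, h3⟩
    · exact absurd h2 (key h1)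
  · rintro ⟨h1, h2, h3⟩
    exact ⟨h1, Or.inl h2, h3⟩

/-- one residue class carries a large product -/
theorem exists_class (n : ℕ) (s : ℕ → ℕ)
    (h : n ^ 200 ≤ ∏ j ∈ range (n + 1), (s j + 1)) :
    ∃ q, n ^ 25 ≤ ∏ j ∈ (range (n + 1)).filter (fun j => j % 8 = q), (s j + 1) := by
  by_contra hcon
  push Not at hcon
  have h1 : ∏ q ∈ range 8, ∏ j ∈ (range (n + 1)).filter (fun j => j % 8 = q), (s j + 1) =
      ∏ j ∈ range (n + 1), (s j + 1) :=
    prod_fiberwise_of_maps_to (fun j _ => mem_range.2 (Nat.mod_lt j (by norm_num))) _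
  have h2 : ∏ q ∈ range 8, ∏ j ∈ (range (n + 1)).filter (fun j => j % 8 = q), (s j + 1) <
      ∏ _q ∈ range 8, n ^ 25 := by
    apply prod_lt_prod_of_nonempty
    · intro q _
      exact prod_pos fun j _ => Nat.succ_pos _
    · intro q _
      exact hcon q
    · exact ⟨0, by simp⟩
  rw [h1, prod_const, card_range, ← pow_mul] at h2
  norm_num at h2
  omega

theorem class_bound (n : ℕ) (hn : 1 ≤ n) (s : ℕ → ℕ) (hs : ∀ j, s j + 1 ≤ n) (q : ℕ)
    (hq : n ^ 25 ≤ ∏ j ∈ (range (n + 1)).filter (fun j => j % 8 = q), (s j + 1)) (t : ℕ) :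
    ∏ j ∈ (range (n + 1)).filter (fun j => j % 8 = q ∧ j ≠ t), (1 / Real.sqrt ((s j : ℝ) + 1)) ≤
      1 / (n : ℝ) ^ 12 := by
  have e1 : (range (n + 1)).filter (fun j => j % 8 = q ∧ j ≠ t) =
      ((range (n + 1)).filter (fun j => j % 8 = q)).erase t := by
    ext j
    rw [mem_filter, mem_erase, mem_filter]
    tauto
  have h1 : n ^ 24 ≤ ∏ j ∈ (range (n + 1)).filter (fun j => j % 8 = q ∧ j ≠ t), (s j + 1) := by
    rw [e1]
    by_cases ht : t ∈ (range (n + 1)).filter (fun j => j % 8 = q)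
    · rw [← mul_prod_erase _ _ ht] at hq
      have h2 := hs t
      by_contra hcon
      push Not at hcon
      have h3 : (s t + 1) * ∏ j ∈ ((range (n + 1)).filter (fun j => j % 8 = q)).erase t, (s j + 1) <
          n * n ^ 24 := by
        calc (s t + 1) * ∏ j ∈ ((range (n + 1)).filter (fun j => j % 8 = q)).erase t, (s j + 1)
            ≤ n * ∏ j ∈ ((range (n + 1)).filter (fun j => j % 8 = q)).erase t, (s j + 1) :=
              Nat.mul_le_mul_right _ h2
          _ < n * n ^ 24 := Nat.mul_lt_mul_of_pos_left hcon (by omega)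
      have h4 : n * n ^ 24 = n ^ 25 := by ring
      omega
    · rw [erase_eq_of_notMem ht]
      exact (Nat.pow_le_pow_right hn (by norm_num)).trans hq
  have hn0 : (0 : ℝ) < n := by exact_mod_cast hn
  have e2 : ∏ j ∈ (range (n + 1)).filter (fun j => j % 8 = q ∧ j ≠ t),
      (1 / Real.sqrt ((s j : ℝ) + 1)) =
      1 / Real.sqrt (∏ j ∈ (range (n + 1)).filter (fun j => j % 8 = q ∧ j ≠ t),
        ((s j : ℝ) + 1)) := by
    rw [prod_div_distrib, prod_const_one]
    congr 1
    generalize (range (n + 1)).filter (fun j => j % 8 = q ∧ j ≠ t) = S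
    classical
    induction S using Finset.induction_on with
    | empty => simp
    | insert a S ha ih =>
      rw [prod_insert ha, prod_insert ha, Real.sqrt_mul (by positivity), ih]
  rw [e2]
  have h5 : (n : ℝ) ^ 12 ≤ Real.sqrt (∏ j ∈ (range (n + 1)).filter (fun j => j % 8 = q ∧ j ≠ t),
      ((s j : ℝ) + 1)) := by
    apply Real.le_sqrt_of_sq_le
    have h6 : (((n ^ 24 : ℕ) : ℝ)) ≤
        ((∏ j ∈ (range (n + 1)).filter (fun j => j % 8 = q ∧ j ≠ t), (s j + 1) : ℕ) : ℝ) := by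
      exact_mod_cast h1
    push_cast at h6
    calc ((n : ℝ) ^ 12) ^ 2 = (n : ℝ) ^ 24 := by ring
      _ ≤ _ := h6
  gcongr

end

theorem main (hM : MC) : HP := by
  intro V _ _ G v v' U U' N hn hvv hU hU' hvU hv'U' hNv hv'N hNU hNU'
  obtain ⟨n, hnd⟩ : ∃ n : ℕ, n = Fintype.card V := ⟨_, rfl⟩
  rw [← hnd] at hn ⊢
  have hn0 : (0 : ℝ) < n := by exact_mod_cast (by omega : 0 < n)
  have hvN : v ∉ N := by
    intro h
    exact ((mem_nb _ _ _ _).1 (hNv h)).2.ne rfl
  obtain ⟨T, hT⟩ : ∃ T : Finset (Sym2 V), T = N.image (fun z => s(v, z)) := ⟨_, rfl⟩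
  have hTE : T ⊆ ed G := by
    intro e he
    rw [hT, mem_image] at he
    obtain ⟨z, hz, rfl⟩ := he
    exact (mem_ed _ _ _).2 ((mem_nb _ _ _ _).1 (hNv hz)).2
  have hNn : N.card + 1 ≤ n := by
    have h1 : (insert v N).card ≤ Fintype.card V := card_le_univ _
    rw [card_insert_of_notMem hvN, ← hnd] at h1
    exact h1
  obtain ⟨Bad, hBad⟩ : ∃ Bad : Finset (Sym2 V) → Prop, Bad = fun F => ∏ j ∈ range (n + 1),
      ((N.filter (fun z => dg F (insert v U) z = j)).card + 1) < n ^ 200 := ⟨_, rfl⟩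
  rw [← hBad, cnt_split (ed G) T hTE (Match v v' U U'), cnt_split (ed G) T hTE Bad]
  have hcardE : (2 : ℝ) ^ (ed G).card = 2 ^ (ed G \ T).card * 2 ^ T.card := by
    rw [← pow_add, card_sdiff_add_card_eq_card hTE]
  have key : ∀ F0 ∈ (ed G \ T).powerset, cnt T (fun A => Match v v' U U' (F0 ∪ A)) ≤
      cnt T (fun A => Bad (F0 ∪ A)) + 1 / (n : ℝ) ^ 10 * 2 ^ T.card := by
    intro F0 hF0
    rw [mem_powerset] at hF0
    have hpos : (0 : ℝ) ≤ 1 / (n : ℝ) ^ 10 * 2 ^ T.card := by positivity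
    have hfil : ∀ A, A ⊆ T → ∀ j, N.filter (fun z => dg (F0 ∪ A) (insert v U) z = j) =
        N.filter (fun z => dg F0 (insert v U) z = j) := by
      intro A hA j
      refine filter_congr fun z hz => ?_
      rw [dg_union v U N hvN F0 A (hT ▸ hA) z hz]
    by_cases hb : Bad F0
    · have h1 : cnt T (fun A => Match v v' U U' (F0 ∪ A)) ≤ cnt T (fun A => Bad (F0 ∪ A)) := by
        refine cnt_mono fun A hA _ => ?_
        rw [hBad] at hb ⊢
        simp only [hfil A hA]
        exact hb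
      linarith
    · rw [hBad] at hb
      simp only [not_lt] at hb
      obtain ⟨s, hs⟩ : ∃ s : ℕ → ℕ, s = fun j =>
        (N.filter (fun z => dg F0 (insert v U) z = j)).card := ⟨_, rfl⟩
      have hs' : ∀ j, (N.filter (fun z => dg F0 (insert v U) z = j)).card = s j :=
        fun j => by rw [hs]
      simp only [hs'] at hb
      obtain ⟨q, hq⟩ := exists_class n s hb
      have hsn : ∀ j, s j + 1 ≤ n := by
        intro j
        have : s j ≤ N.card := by
          rw [← hs']
          exact card_filter_le _ _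
        omega
      have h1 := hM V v v' U U' N F0 q (1 / (n : ℝ) ^ 12) hvv hU hU' hvU hv'U' hvN hv'N hNU hNU'
        (by
          intro z hz h
          have h2 := (mem_sdiff.1 (hF0 h)).2
          rw [hT] at h2
          exact h2 (mem_image_of_mem _ hz))
        (by
          intro t
          rw [← hnd]
          simp only [hs']
          exact class_bound n (by omega) s hsn q hq t)
      rw [← hT, ← hnd] at h1
      have h2 : ((n : ℝ) + 2) * (1 / (n : ℝ) ^ 12) ≤ 1 / (n : ℝ) ^ 10 := by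
        have h3 : (n : ℝ) + 2 ≤ (n : ℝ) ^ 2 := by
          have : (2 : ℝ) ≤ n := by exact_mod_cast hn
          nlinarith
        rw [mul_one_div, div_le_div_iff₀ (by positivity) (by positivity), one_mul]
        calc ((n : ℝ) + 2) * (n : ℝ) ^ 10 ≤ (n : ℝ) ^ 2 * (n : ℝ) ^ 10 := by gcongr
          _ = (n : ℝ) ^ 12 := by ring
      have h4 : ((n : ℝ) + 2) * (1 / (n : ℝ) ^ 12) * 2 ^ T.card ≤
          1 / (n : ℝ) ^ 10 * 2 ^ T.card := by gcongr
      have h5 := cnt_nonneg T (fun A => Bad (F0 ∪ A))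
      linarith
  calc ∑ F0 ∈ (ed G \ T).powerset, cnt T (fun A => Match v v' U U' (F0 ∪ A))
      ≤ ∑ F0 ∈ (ed G \ T).powerset, (cnt T (fun A => Bad (F0 ∪ A)) +
          1 / (n : ℝ) ^ 10 * 2 ^ T.card) := sum_le_sum key
    _ = ∑ F0 ∈ (ed G \ T).powerset, cnt T (fun A => Bad (F0 ∪ A)) +
          1 / (n : ℝ) ^ 10 * 2 ^ (ed G).card := by
        rw [sum_add_distrib, sum_const, card_powerset, nsmul_eq_mul, hcardE]
        push_cast
        ring

end Pool.Agent.Y891.RC.HPf
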