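import Pool.Agent.Y395.RS.Stm

set_option autoImplicit false

/-! Project RS (helper395): the degrees of an independent set are spread out. -/

namespace Pool.Agent.Y891.RC

open Finset Pool.Agent.H234RC Pool.Agent.TH953.RC Pool.Agent.Y395.RS

section

variable {V : Type} [Fintype V] [DecidableEq V]

/-- the edges from `z` to vertices outside `W` -/
noncomputable def Ez (G : SimpleGraph V) (W : Finset V) (z : V) : Finset (Sym2 V) :=
  (nb G (univ \ W) z).image (fun w => s(z, w))

theorem mk_inj (z : V) : Function.Injective (fun w : V => s(z, w)) := by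
  intro w w' h
  exact Sym2.congr_right.1 h

theorem card_Ez (G : SimpleGraph V) (W : Finset V) (z : V) :
    (Ez G W z).card = (nb G (univ \ W) z).card := card_image_of_injective _ (mk_inj z)

theorem Ez_sub (G : SimpleGraph V) (W : Finset V) (z : V) : Ez G W z ⊆ ed G := by
  intro e he
  unfold Ez at he
  rw [mem_image] at he
  obtain ⟨w, hw, rfl⟩ := he
  rw [mem_ed]
  exact ((mem_nb _ _ _ _).1 hw).2

theorem dg_eq (G : SimpleGraph V) (W : Finset V) (F : Finset (Sym2 V)) (hF : F ⊆ ed G) (z : V) :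
    dg F W z = (F ∩ Ez G W z).card := by
  unfold dg
  rw [← card_image_of_injective _ (mk_inj z)]
  congr 1
  ext e
  rw [mem_image, mem_inter]
  constructor
  · rintro ⟨w, hw, rfl⟩
    rw [mem_nb, gr_adj_of hF] at hw
    refine ⟨hw.2, ?_⟩
    unfold Ez
    rw [mem_image]
    exact ⟨w, (mem_nb _ _ _ _).2 ⟨hw.1, (mem_ed _ _ _).1 (hF hw.2)⟩, rfl⟩
  · rintro ⟨h1, h2⟩
    unfold Ez at h2
    rw [mem_image] at h2
    obtain ⟨w, hw, rfl⟩ := h2
    refine ⟨w, ?_, rfl⟩
    rw [mem_nb, gr_adj_of hF]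
    exact ⟨((mem_nb _ _ _ _).1 hw).1, h1⟩

theorem dg_le (F : Finset (Sym2 V)) (W : Finset V) (z : V) : dg F W z ≤ Fintype.card V := by
  unfold dg
  exact card_le_univ _

theorem Ez_disj (G : SimpleGraph V) (N W : Finset V) (hN : Indep G N) (z z' : V) (hz : z ∈ N)
    (hz' : z' ∈ N) (hne : z ≠ z') : Disjoint (Ez G W z) (Ez G W z') := by
  rw [disjoint_left]
  intro e h1 h2
  unfold Ez at h1 h2
  rw [mem_image] at h1 h2
  obtain ⟨w, hw, rfl⟩ := h1
  obtain ⟨w', hw', h⟩ := h2
  rw [Sym2.eq_iff] at h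
  rcases h with ⟨h, -⟩ | ⟨h, -⟩
  · exact hne h.symm
  · have := ((mem_nb _ _ _ _).1 hw).2
    rw [← h] at this
    exact hN z hz z' hz' this

theorem cnt_card {α : Type} [DecidableEq α] (E : Finset α) (j : ℕ) :
    cnt E (fun A => A.card = j) = (E.card.choose j : ℝ) := by
  rw [cnt_eq, ← powersetCard_eq_filter, card_powersetCard]

/-- the probability that the number of elements is in `J'` -/
theorem cnt_mem {α : Type} [DecidableEq α] (hB : BINOM) (E : Finset α) (J' : Finset ℕ) (J d : ℕ)
    (hJ : J'.card ≤ J) (hd : d ≤ E.card) (hJd : (16 * J) ^ 2 ≤ d + 1) :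
    cnt E (fun A => A.card ∈ J') ≤ 1 / 16 * 2 ^ E.card := by
  have h1 : cnt E (fun A => A.card ∈ J') ≤ ∑ j ∈ J', cnt E (fun A => A.card = j) := by
    refine (cnt_mono fun A _ h => ?_).trans (cnt_ex E J' (fun j A => A.card = j))
    exact ⟨A.card, h, rfl⟩
  have hs : (0 : ℝ) < Real.sqrt ((E.card : ℝ) + 1) := Real.sqrt_pos.2 (by positivity)
  have h2 : ∑ j ∈ J', cnt E (fun A => A.card = j) ≤ J * (2 ^ E.card / Real.sqrt (E.card + 1)) := by
    calc ∑ j ∈ J', cnt E (fun A => A.card = j)
        ≤ ∑ _j ∈ J', (2 : ℝ) ^ E.card / Real.sqrt (E.card + 1) := by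
          refine sum_le_sum fun j _ => ?_
          rw [cnt_card]
          exact hB _ _
      _ = J'.card * (2 ^ E.card / Real.sqrt (E.card + 1)) := by
          rw [sum_const, nsmul_eq_mul]
      _ ≤ J * (2 ^ E.card / Real.sqrt (E.card + 1)) := by
          gcongr
  refine h1.trans (h2.trans ?_)
  have h3 : (16 : ℝ) * J ≤ Real.sqrt (E.card + 1) := by
    apply Real.le_sqrt_of_sq_le
    have : (16 * J) ^ 2 ≤ E.card + 1 := hJd.trans (by omega)
    exact_mod_cast this
  have h4 : (J : ℝ) / Real.sqrt (E.card + 1) ≤ 1 / 16 := by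
    rw [div_le_iff₀ hs]
    linarith
  calc (J : ℝ) * (2 ^ E.card / Real.sqrt (E.card + 1))
      = J / Real.sqrt (E.card + 1) * 2 ^ E.card := by ring
    _ ≤ 1 / 16 * 2 ^ E.card := by gcongr

/-- the deterministic part -/
theorem det_part (n : ℕ) (N : Finset V) (g : V → ℕ) (J h : ℕ) (hn : 2 ≤ n)
    (hg : ∀ z ∈ N, g z ≤ n) (hJ : n ^ 200 ≤ (h + 1) ^ (J + 1))
    (hN : 400 * (Nat.log 2 n + 1) * h ≤ N.card)
    (hprod : ∏ j ∈ range (n + 1), ((N.filter (fun z => g z = j)).card + 1) < n ^ 200) :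
    ∃ J' : Finset ℕ, J' ⊆ range (n + 1) ∧ J'.card ≤ J ∧
      N.card ≤ 2 * (N.filter (fun z => g z ∈ J')).card := by
  obtain ⟨s, hs⟩ : ∃ s : ℕ → ℕ, s = fun j => (N.filter (fun z => g z = j)).card := ⟨_, rfl⟩
  have hs' : ∀ j, (N.filter (fun z => g z = j)).card = s j := fun j => by rw [hs]
  simp only [hs'] at hprod
  have hh : 1 ≤ h := by
    by_contra hcon
    have h0 : h = 0 := by omega
    rw [h0] at hJ
    have h1 : 1 < n ^ 200 := Nat.one_lt_pow (by norm_num) (by omega)
    rw [zero_add, one_pow] at hJ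
    omega
  refine ⟨(range (n + 1)).filter (fun j => h ≤ s j), filter_subset _ _, ?_, ?_⟩
  · have h1 : (h + 1) ^ ((range (n + 1)).filter (fun j => h ≤ s j)).card ≤
        ∏ j ∈ range (n + 1), (s j + 1) := by
      calc (h + 1) ^ ((range (n + 1)).filter (fun j => h ≤ s j)).card
          = ∏ _j ∈ (range (n + 1)).filter (fun j => h ≤ s j), (h + 1) := by
            rw [prod_const]
        _ ≤ ∏ j ∈ (range (n + 1)).filter (fun j => h ≤ s j), (s j + 1) := by
            refine prod_le_prod' fun j hj => ?_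
            have := (mem_filter.1 hj).2
            omega
        _ ≤ ∏ j ∈ range (n + 1), (s j + 1) := by
            refine prod_le_prod_of_subset_of_one_le' (filter_subset _ _) fun j _ _ => ?_
            omega
    have h2 : (h + 1) ^ ((range (n + 1)).filter (fun j => h ≤ s j)).card < (h + 1) ^ (J + 1) := by
      omega
    have h3 := (Nat.pow_lt_pow_iff_right (show 1 < h + 1 by omega)).1 h2
    omega
  · have hc : ((range (n + 1)).filter (fun j => 1 ≤ s j)).card ≤ 200 * (Nat.log 2 n + 1) := by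
      have h1 : 2 ^ ((range (n + 1)).filter (fun j => 1 ≤ s j)).card ≤
          ∏ j ∈ range (n + 1), (s j + 1) := by
        calc 2 ^ ((range (n + 1)).filter (fun j => 1 ≤ s j)).card
            = ∏ _j ∈ (range (n + 1)).filter (fun j => 1 ≤ s j), 2 := by
              rw [prod_const]
          _ ≤ ∏ j ∈ (range (n + 1)).filter (fun j => 1 ≤ s j), (s j + 1) := by
              refine prod_le_prod' fun j hj => ?_
              have := (mem_filter.1 hj).2
              omega
          _ ≤ ∏ j ∈ range (n + 1), (s j + 1) := by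
              refine prod_le_prod_of_subset_of_one_le' (filter_subset _ _) fun j _ _ => ?_
              omega
      have h2 : n ^ 200 ≤ 2 ^ (200 * (Nat.log 2 n + 1)) := by
        calc n ^ 200 ≤ (2 ^ (Nat.log 2 n + 1)) ^ 200 :=
              Nat.pow_le_pow_left (Nat.lt_pow_succ_log_self (by norm_num) n).le 200
          _ = 2 ^ (200 * (Nat.log 2 n + 1)) := by
              rw [← pow_mul]
              congr 1
              ring
      have h3 : 2 ^ ((range (n + 1)).filter (fun j => 1 ≤ s j)).card <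
          2 ^ (200 * (Nat.log 2 n + 1)) := by omega
      exact ((Nat.pow_lt_pow_iff_right (show 1 < 2 by norm_num)).1 h3).le
    obtain ⟨J', hJ'⟩ : ∃ J' : Finset ℕ, J' = (range (n + 1)).filter (fun j => h ≤ s j) :=
      ⟨_, rfl⟩
    rw [← hJ']
    have hbad : (N.filter (fun z => ¬ g z ∈ J')).card ≤ 200 * (Nat.log 2 n + 1) * h := by
      have h1 : (N.filter (fun z => ¬ g z ∈ J')).card =
          ∑ j ∈ (range (n + 1)).filter (fun j => 1 ≤ s j),
            ((N.filter (fun z => ¬ g z ∈ J')).filter (fun z => g z = j)).card := by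
        refine card_eq_sum_card_fiberwise fun z hz => ?_
        rw [mem_coe, mem_filter] at hz
        rw [mem_coe, mem_filter, mem_range]
        refine ⟨by have := hg z hz.1; omega, ?_⟩
        rw [← hs', Nat.one_le_iff_ne_zero, ← Nat.pos_iff_ne_zero, card_pos]
        exact ⟨z, mem_filter.2 ⟨hz.1, rfl⟩⟩
      rw [h1]
      calc ∑ j ∈ (range (n + 1)).filter (fun j => 1 ≤ s j),
            ((N.filter (fun z => ¬ g z ∈ J')).filter (fun z => g z = j)).card
          ≤ ∑ _j ∈ (range (n + 1)).filter (fun j => 1 ≤ s j), h := by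
            refine sum_le_sum fun j hj => ?_
            by_cases hjJ : j ∈ J'
            · have : (N.filter (fun z => ¬ g z ∈ J')).filter (fun z => g z = j) = ∅ := by
                rw [filter_eq_empty_iff]
                intro z hz hzj
                rw [mem_filter] at hz
                exact hz.2 (hzj ▸ hjJ)
              rw [this, card_empty]
              exact Nat.zero_le _
            · have h2 : s j < h := by
                by_contra hcon
                apply hjJ
                rw [hJ', mem_filter]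
                exact ⟨(mem_filter.1 hj).1, by omega⟩
              have h3 : ((N.filter (fun z => ¬ g z ∈ J')).filter (fun z => g z = j)).card ≤ s j := by
                rw [← hs']
                apply card_le_card
                intro z hz
                rw [mem_filter, mem_filter] at hz
                exact mem_filter.2 ⟨hz.1.1, hz.2⟩
              omega
        _ = ((range (n + 1)).filter (fun j => 1 ≤ s j)).card * h := by
            rw [sum_const, smul_eq_mul]
        _ ≤ 200 * (Nat.log 2 n + 1) * h := Nat.mul_le_mul_right h hc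
    have hsum := card_filter_add_card_filter_not (s := N) (fun z => g z ∈ J')
    have h4 : 400 * (Nat.log 2 n + 1) * h = 2 * (200 * (Nat.log 2 n + 1) * h) := by ring
    omega

end

theorem main (hB : BINOM) : SPREAD := by
  intro V _ _ G N W d J h hn hN hNW hd hJd hJh hNc
  obtain ⟨n, hnd⟩ : ∃ n : ℕ, n = Fintype.card V := ⟨_, rfl⟩
  rw [← hnd] at hn hJh hNc ⊢
  -- the events
  obtain ⟨Fs, hFs⟩ : ∃ Fs : Finset (Fin J → ℕ), Fs = Fintype.piFinset (fun _ => range (n + 2)) :=
    ⟨_, rfl⟩
  obtain ⟨Ns, hNs⟩ : ∃ Ns : Finset (Finset V), Ns = N.powerset.filter (fun N1 =>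
    N.card ≤ 2 * N1.card) := ⟨_, rfl⟩
  have hev : ∀ F, F ⊆ ed G → ∏ j ∈ range (n + 1),
      ((N.filter (fun z => dg F W z = j)).card + 1) < n ^ 200 →
      ∃ f ∈ Fs, ∃ N1 ∈ Ns, ∀ z ∈ N1, (F ∩ Ez G W z).card ∈ univ.image f := by
    intro F hF hprod
    obtain ⟨J', hJ'1, hJ'2, hJ'3⟩ := det_part n N (fun z => dg F W z) J h hn
      (fun z _ => by rw [hnd]; exact dg_le F W z) hJh hNc hprod
    have hemb : Nonempty (J' ↪ Fin J) := by
      rw [Function.Embedding.nonempty_iff_card_le]
      simpa using hJ'2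
    obtain ⟨e⟩ := hemb
    obtain ⟨f, hf⟩ : ∃ f : Fin J → ℕ, f = Function.extend e (fun j => (j : ℕ)) (fun _ => 0) :=
      ⟨_, rfl⟩
    refine ⟨f, ?_, N.filter (fun z => dg F W z ∈ J'), ?_, ?_⟩
    · rw [hFs, Fintype.mem_piFinset]
      intro i
      rw [mem_range, hf]
      by_cases hi : ∃ j, e j = i
      · obtain ⟨j, rfl⟩ := hi
        rw [e.injective.extend_apply]
        have := mem_range.1 (hJ'1 j.2)
        omega
      · rw [Function.extend_apply' _ _ _ hi]
        omega
    · rw [hNs, mem_filter, mem_powerset]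
      exact ⟨filter_subset _ _, hJ'3⟩
    · intro z hz
      rw [mem_filter, dg_eq G W F hF z] at hz
      rw [mem_image]
      refine ⟨e ⟨_, hz.2⟩, mem_univ _, ?_⟩
      rw [hf, e.injective.extend_apply]
  have hone : ∀ f ∈ Fs, ∀ N1 ∈ Ns,
      cnt (ed G) (fun F => ∀ z ∈ N1, (F ∩ Ez G W z).card ∈ univ.image f) ≤
        (1 / 4) ^ N.card * 2 ^ (ed G).card := by
    intro f _ N1 hN1
    rw [hNs, mem_filter, mem_powerset] at hN1
    have h1 := cnt_blocks (ed G) N1 (fun z => Ez G W z) (fun _ A => A.card ∈ univ.image f)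
      (fun _ => 1 / 16) (fun z _ => Ez_sub G W z)
      (fun z hz z' hz' hne => Ez_disj G N W hN z z' (hN1.1 hz) (hN1.1 hz') hne)
      (fun z hz => cnt_mem hB _ _ J d (by
        calc (univ.image f).card ≤ (univ : Finset (Fin J)).card := card_image_le
          _ = J := by rw [card_univ, Fintype.card_fin]) (by
        rw [card_Ez]; exact hd z (hN1.1 hz)) hJd)
    rw [prod_const] at h1
    refine h1.trans ?_
    have h2 : ((1 : ℝ) / 16) ^ N1.card ≤ (1 / 4) ^ N.card := by
      calc ((1 : ℝ) / 16) ^ N1.card = (1 / 4) ^ (2 * N1.card) := by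
            rw [pow_mul]; norm_num
        _ ≤ (1 / 4) ^ N.card := pow_le_pow_of_le_one (by norm_num) (by norm_num) hN1.2
    gcongr
  have hcF : (Fs.card : ℝ) = ((n : ℝ) + 2) ^ J := by
    rw [hFs, Fintype.card_piFinset]
    simp
  have hcN : (Ns.card : ℝ) ≤ 2 ^ N.card := by
    have : Ns.card ≤ 2 ^ N.card := by
      rw [hNs, ← card_powerset]
      exact card_filter_le _ _
    exact_mod_cast this
  calc cnt (ed G) (fun F => ∏ j ∈ range (n + 1),
        ((N.filter (fun z => dg F W z = j)).card + 1) < n ^ 200)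
      ≤ cnt (ed G) (fun F => ∃ f ∈ Fs, ∃ N1 ∈ Ns, ∀ z ∈ N1,
          (F ∩ Ez G W z).card ∈ univ.image f) := cnt_mono hev
    _ ≤ ∑ f ∈ Fs, cnt (ed G) (fun F => ∃ N1 ∈ Ns, ∀ z ∈ N1,
          (F ∩ Ez G W z).card ∈ univ.image f) := cnt_ex _ _ _
    _ ≤ ∑ f ∈ Fs, ∑ N1 ∈ Ns, cnt (ed G) (fun F => ∀ z ∈ N1,
          (F ∩ Ez G W z).card ∈ univ.image f) := sum_le_sum fun f _ => cnt_ex _ _ _
    _ ≤ ∑ _f ∈ Fs, ∑ _N1 ∈ Ns, (1 / 4 : ℝ) ^ N.card * 2 ^ (ed G).card :=
        sum_le_sum fun f hf => sum_le_sum fun N1 hN1 => hone f hf N1 hN1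
    _ = ((n : ℝ) + 2) ^ J * (Ns.card * ((1 / 4 : ℝ) ^ N.card * 2 ^ (ed G).card)) := by
        rw [sum_const, sum_const, nsmul_eq_mul, nsmul_eq_mul, hcF]
    _ ≤ ((n : ℝ) + 2) ^ J * (2 ^ N.card * ((1 / 4 : ℝ) ^ N.card * 2 ^ (ed G).card)) := by
        gcongr
    _ = ((n : ℝ) + 2) ^ J * (1 / 2) ^ N.card * 2 ^ (ed G).card := by
        have : (2 : ℝ) ^ N.card * (1 / 4) ^ N.card = (1 / 2) ^ N.card := by
          rw [← mul_pow]; norm_num
        rw [← this]
        ring

end Pool.Agent.Y891.RC
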